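import Pool.Agent.H369.TH.Stm

/-!
# Project CK (helper369), TH8: sections on the square vanishing along the diagonal
-/

set_option autoImplicit false

namespace Pool.Agent.H650.TH

open Pool.Agent.H369.TH TensorProduct

variable {Γ K : Type} [AddCommGroup Γ] [LinearOrder Γ] [IsOrderedAddMonoid Γ] [Field K]

theorem cf_eq (f : Ent Γ K) (s a : Γ) (m : ℤ) : cf (f.1 s) a m = (co f m).coeff (a - m • s) := by
  rw [coeff_co]
  exact Ent.rel f s a m

theorem ext_co {f g : Ent Γ K} (h : ∀ m, co f m = co g m) : f = g := by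
  apply Subtype.ext
  funext s
  apply cf_ext
  intro a m
  rw [cf_eq, cf_eq, h]

/-! ### Entire functions with given coefficients -/

section mkG

variable (g : ℤ → HG Γ K) (hf : ∀ s a : Γ, {m : ℤ | (g m).coeff (a - m • s) ≠ 0}.Finite)
  (hp : ∀ s : Γ, {a : Γ | ∃ m : ℤ, (g m).coeff (a - m • s) ≠ 0}.IsPWO)

/-- the entire function with the coefficients `g m` -/
noncomputable def mkG : Ent Γ K :=
  ⟨fun s =>
    { coeff := fun a => .ofCoeff (Finsupp.onFinset (hf s a).toFinset
        (fun m => (g m).coeff (a - m • s)) (by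
          intro m hm
          rw [Set.Finite.mem_toFinset]
          exact hm))
      isPWO_support' := (hp s).mono (by
        intro a ha
        by_contra hc
        apply ha
        ext m
        simp only [AddMonoidAlgebra.coeff_ofCoeff, Finsupp.onFinset_apply,
          AddMonoidAlgebra.coeff_zero, Finsupp.coe_zero, Pi.zero_apply]
        by_contra h1
        exact hc ⟨m, h1⟩) },
    fun s a m => by
      simp only [cf, AddMonoidAlgebra.coeff_ofCoeff, Finsupp.onFinset_apply, smul_zero, sub_zero]⟩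

theorem co_mkG (m : ℤ) : co (mkG g hf hp) m = g m := by
  ext a
  rw [coeff_co]
  simp only [cf, mkG, AddMonoidAlgebra.coeff_ofCoeff, Finsupp.onFinset_apply, smul_zero, sub_zero]

end mkG

/-! ### Products of Hahn series -/

theorem exists_of_mul {x y : HG Γ K} {b : Γ} (h : (x * y).coeff b ≠ 0) :
    ∃ b₁ b₂ : Γ, b₁ + b₂ = b ∧ x.coeff b₁ ≠ 0 ∧ y.coeff b₂ ≠ 0 := by
  rw [HahnSeries.coeff_mul] at h
  obtain ⟨p, hp, hne⟩ := Finset.exists_ne_zero_of_sum_ne_zero h
  rw [Finset.mem_antidiagonal] at hp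
  exact ⟨p.1, p.2, hp.2.2, left_ne_zero_of_mul hne, right_ne_zero_of_mul hne⟩

theorem coeff_mul_finsum (x y : HG Γ K) (b : Γ) :
    (x * y).coeff b = ∑ᶠ a : Γ, x.coeff a * y.coeff (b - a) := by
  classical
  rw [HahnSeries.coeff_mul]
  set A := Finset.antidiagonal x.isPWO_support y.isPWO_support b with hA
  have hinj : Set.InjOn (Prod.fst : Γ × Γ → Γ) A := by
    rintro ⟨a, c⟩ h ⟨a', c'⟩ h' he
    simp only at he
    subst he
    rw [Finset.mem_coe, hA, Finset.mem_antidiagonal] at h h'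
    have e1 := h.2.2
    have e2 := h'.2.2
    simp only at e1 e2
    have : c = c' := by rw [← e2] at e1; exact add_left_cancel e1
    rw [this]
  rw [finsum_eq_sum_of_support_subset (s := A.image Prod.fst)]
  · rw [Finset.sum_image hinj]
    refine Finset.sum_congr rfl fun p hp => ?_
    rw [hA, Finset.mem_antidiagonal] at hp
    have e1 : b - p.1 = p.2 := by rw [← hp.2.2]; abel
    rw [e1]
  · intro a ha
    rw [Function.mem_support] at ha
    rw [Finset.coe_image]
    refine ⟨(a, b - a), ?_, rfl⟩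
    rw [Finset.mem_coe, hA, Finset.mem_antidiagonal]
    exact ⟨left_ne_zero_of_mul ha, right_ne_zero_of_mul ha, by simp⟩

/-! ### The functions `A_l` -/

theorem mem_of_coeff {f : Ent Γ K} {m : ℤ} {b : Γ} (s : Γ) (h : (co f m).coeff b ≠ 0) :
    cf (f.1 s) (b + m • s) m ≠ 0 := by
  rw [cf_eq, add_sub_cancel_right]
  exact h

theorem supp_of_cf {u : HL Γ K} {a : Γ} {m : ℤ} (h : cf u a m ≠ 0) : a ∈ u.support := by
  rw [HahnSeries.mem_support]
  intro h0
  apply h
  unfold cf
  rw [h0]
  rfl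

theorem fin_B (l : ℤ) (f h : Ent Γ K) (s a : Γ) :
    {m : ℤ | (co f m * co h (l - m)).coeff (a - m • s) ≠ 0}.Finite := by
  classical
  have hfin : (⋃ p ∈ (Finset.antidiagonal (f.1 s).isPWO_support (h.1 0).isPWO_support a :
      Finset (Γ × Γ)), (((f.1 s).coeff p.1).coeff.support : Set ℤ)).Finite :=
    Set.Finite.biUnion (Finset.finite_toSet _) fun p _ => Finset.finite_toSet _
  refine hfin.subset fun m hm => ?_
  obtain ⟨b₁, b₂, hb, h1, h2⟩ := exists_of_mul hm
  have h3 := mem_of_coeff s h1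
  have h4 := mem_of_coeff 0 h2
  rw [smul_zero, add_zero] at h4
  refine Set.mem_biUnion (x := (b₁ + m • s, b₂)) ?_ ?_
  · rw [Finset.mem_coe, Finset.mem_antidiagonal]
    refine ⟨supp_of_cf h3, supp_of_cf h4, ?_⟩
    simp only
    have : b₁ + m • s + b₂ = (b₁ + b₂) + m • s := by abel
    rw [this, hb, sub_add_cancel]
  · rw [Finset.mem_coe, Finsupp.mem_support_iff]
    exact h3

theorem pwo_B (l : ℤ) (f h : Ent Γ K) (s : Γ) :
    {a : Γ | ∃ m : ℤ, (co f m * co h (l - m)).coeff (a - m • s) ≠ 0}.IsPWO := by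
  refine ((f.1 s).isPWO_support.add (h.1 0).isPWO_support).mono ?_
  rintro a ⟨m, hm⟩
  obtain ⟨b₁, b₂, hb, h1, h2⟩ := exists_of_mul hm
  have h3 := mem_of_coeff s h1
  have h4 := mem_of_coeff 0 h2
  rw [smul_zero, add_zero] at h4
  refine Set.mem_add.2 ⟨b₁ + m • s, supp_of_cf h3, b₂, supp_of_cf h4, ?_⟩
  have : b₁ + m • s + b₂ = (b₁ + b₂) + m • s := by abel
  rw [this, hb, sub_add_cancel]

/-- the function with the coefficients `co f m * co h (l - m)` -/
noncomputable def B (l : ℤ) (f h : Ent Γ K) : Ent Γ K :=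
  mkG (fun m => co f m * co h (l - m)) (fin_B l f h) (pwo_B l f h)

theorem co_B (l : ℤ) (f h : Ent Γ K) (m : ℤ) : co (B l f h) m = co f m * co h (l - m) :=
  co_mkG _ _ _ m

theorem exists_L (h1 : S_rules) : ∃ L : ℤ → (Ent Γ K ⊗[HG Γ K] Ent Γ K →ₗ[HG Γ K] Ent Γ K),
    ∀ (l : ℤ) (f h : Ent Γ K), L l (f ⊗ₜ h) = B l f h := by
  obtain ⟨-, -, hadd, hcst, -⟩ := h1 Γ K
  refine ⟨fun l => TensorProduct.lift (LinearMap.mk₂ (HG Γ K) (B l) ?_ ?_ ?_ ?_), fun l f h => ?_⟩
  · intro f f' h
    apply ext_co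
    intro m
    rw [hadd, co_B, co_B, co_B, hadd, add_mul]
  · intro c f h
    apply ext_co
    intro m
    rw [smul_def', smul_def', hcst, co_B, co_B, hcst, mul_assoc]
  · intro f h h'
    apply ext_co
    intro m
    rw [hadd, co_B, co_B, co_B, hadd, mul_add]
  · intro c f h
    apply ext_co
    intro m
    rw [smul_def', smul_def', hcst, co_B, co_B, hcst, mul_left_comm]
  · rw [TensorProduct.lift.tmul]
    rfl

/-! ### The value at the point `1` -/

theorem constCoeff_ph (p : LP K) :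
    PowerSeries.coeff 0 (ph (1 : Kˣ) p) = p.coeff.sum fun _ c => c := by
  classical
  induction p using AddMonoidAlgebra.induction_linear with
  | zero => simp
  | add p q hp hq =>
    rw [map_add, map_add, hp, hq, AddMonoidAlgebra.coeff_add,
      Finsupp.sum_add_index' (fun _ => rfl) (fun _ _ _ => rfl)]
  | single m c =>
    rw [AddMonoidAlgebra.coeff_single, Finsupp.sum_single_index rfl]
    unfold ph
    rw [RingHom.coe_coe, AddMonoidAlgebra.lift_single]
    rw [PowerSeries.coeff_smul]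
    have h1 : PowerSeries.coeff 0 (((Units.coeHom (PowerSeries K)).comp
        (zpowersHom (PowerSeries K)ˣ (xiU (1 : Kˣ)))) (Multiplicative.ofAdd m)) = 1 := by
      have h2 : Units.map (PowerSeries.constantCoeff : PowerSeries K →+* K).toMonoidHom
          (xiU (1 : Kˣ)) = 1 := by
        ext
        simp [xiU]
      have h3 : Units.map (PowerSeries.constantCoeff : PowerSeries K →+* K).toMonoidHom
          (xiU (1 : Kˣ) ^ m) = 1 := by
        rw [map_zpow, h2, one_zpow]
      rw [PowerSeries.coeff_zero_eq_constantCoeff]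
      exact congrArg Units.val h3
    rw [h1, smul_eq_mul, mul_one]

theorem T_one_zero (g : Ent Γ K) (b : Γ) :
    (PowerSeries.coeff 0 (T 1 g)).coeff b = ∑ᶠ m : ℤ, (co g m).coeff b := by
  rw [coeff_T]
  have h1 : PowerSeries.coeff 0 (ph (1 : Pt Γ K).2 ((g.1 (1 : Pt Γ K).v).coeff b)) =
      ((g.1 0).coeff b).coeff.sum fun _ c => c := constCoeff_ph _
  rw [h1, Finsupp.sum, finsum_eq_sum_of_support_subset]
  · rfl
  · intro m hm
    rw [Function.mem_support] at hm
    rw [Finset.mem_coe, Finsupp.mem_support_iff]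
    exact hm

theorem T_one_B (l : ℤ) (F h : Ent Γ K) :
    PowerSeries.coeff 0 (T 1 (B l F h)) = co (F * h) l := by
  classical
  ext b
  rw [T_one_zero, coeff_co]
  have h0 : cf ((F * h).1 0) b l =
      ∑ᶠ p : Γ × ℤ, cf (F.1 0) p.1 p.2 * cf (h.1 0) (b - p.1) (l - p.2) := cf_mul _ _ _ _
  rw [h0]
  have h1 : ∀ m : ℤ, (co (B l F h) m).coeff b =
      ∑ᶠ a : Γ, cf (F.1 0) a m * cf (h.1 0) (b - a) (l - m) := by
    intro m
    rw [co_B, coeff_mul_finsum]
    rfl
  rw [finsum_congr h1]
  have hfin : (Function.support fun p : ℤ × Γ =>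
      cf (F.1 0) p.2 p.1 * cf (h.1 0) (b - p.2) (l - p.1)).Finite := by
    have hfin' : (⋃ q ∈ (Finset.antidiagonal (F.1 0).isPWO_support (h.1 0).isPWO_support b :
        Finset (Γ × Γ)), (fun m : ℤ => (m, q.1)) ''
          (((F.1 0).coeff q.1).coeff.support : Set ℤ)).Finite :=
      Set.Finite.biUnion (Finset.finite_toSet _) fun p _ => (Finset.finite_toSet _).image _
    refine hfin'.subset ?_
    rintro ⟨m, a⟩ hp
    rw [Function.mem_support] at hp
    simp only at hp
    have h3 := left_ne_zero_of_mul hp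
    have h4 := right_ne_zero_of_mul hp
    refine Set.mem_biUnion (x := (a, b - a)) ?_ ?_
    · rw [Finset.mem_coe, Finset.mem_antidiagonal]
      exact ⟨supp_of_cf h3, supp_of_cf h4, by simp⟩
    · refine ⟨m, ?_, rfl⟩
      rw [Finset.mem_coe, Finsupp.mem_support_iff]
      exact h3
  have h2 := finsum_curry (fun p : ℤ × Γ =>
      cf (F.1 0) p.2 p.1 * cf (h.1 0) (b - p.2) (l - p.1)) hfin
  simp only at h2
  rw [← h2]
  exact finsum_comp_equiv (Equiv.prodComm ℤ Γ)
    (f := fun p : Γ × ℤ => cf (F.1 0) p.1 p.2 * cf (h.1 0) (b - p.1) (l - p.2))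

theorem co_Dl (j : ℕ) (f : Ent Γ K) (m : ℤ) :
    co (Dl j f) m = ((Ring.choose m j : ℤ) : K) • co f m := by
  ext a
  rw [coeff_co, cf_Dl, HahnSeries.coeff_smul, coeff_co, smul_eq_mul]

theorem Dl_B (j : ℕ) (l : ℤ) (f h : Ent Γ K) : Dl j (B l f h) = B l (Dl j f) h := by
  apply ext_co
  intro m
  rw [co_Dl, co_B, co_B, co_Dl, smul_mul_assoc]

/-! ### The functionals `co · m` separate the points of the tensor product -/

theorem zero_of_L (h1 : S_rules) (L : ℤ → (Ent Γ K ⊗[HG Γ K] Ent Γ K →ₗ[HG Γ K] Ent Γ K))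
    (hL : ∀ (l : ℤ) (f h : Ent Γ K), L l (f ⊗ₜ h) = B l f h)
    (H : Ent Γ K ⊗[HG Γ K] Ent Γ K) (hH : ∀ l, L l H = 0) : H = 0 := by
  classical
  obtain ⟨-, -, hadd, hcst, -⟩ := h1 Γ K
  have hzero : ∀ m : ℤ, co (0 : Ent Γ K) m = 0 := by
    intro m
    have := hadd 0 0 m
    rw [add_zero] at this
    exact (add_eq_left.1 this.symm)
  have hsum : ∀ {ι : Type} (s : Finset ι) (F : ι → Ent Γ K) (m : ℤ),
      co (∑ i ∈ s, F i) m = ∑ i ∈ s, co (F i) m := by
    intro ι s F m
    induction s using Finset.induction_on with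
    | empty => rw [Finset.sum_empty, Finset.sum_empty, hzero]
    | insert a s ha ih => rw [Finset.sum_insert ha, Finset.sum_insert ha, hadd, ih]
  let e := Module.Basis.ofVectorSpace (HG Γ K) (Ent Γ K)
  obtain ⟨b, rfl⟩ := TensorProduct.eq_repr_basis_right e H
  have key : ∀ i, b i = 0 := by
    intro i
    apply ext_co
    intro m
    rw [hzero]
    -- the combination of the basis with the coefficients `co (b i) m`
    have hcomb : ∑ i ∈ b.support, co (b i) m • e i = 0 := by
      apply ext_co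
      intro m'
      rw [hzero, hsum]
      have h2 := hH (m + m')
      rw [Finsupp.sum, map_sum] at h2
      have h3 : co (∑ i ∈ b.support, L (m + m') (b i ⊗ₜ e i)) m = 0 := by rw [h2, hzero]
      rw [hsum] at h3
      rw [← h3]
      refine Finset.sum_congr rfl fun i _ => ?_
      rw [hL, co_B, smul_def', hcst, add_sub_cancel_left]
    by_cases hi : i ∈ b.support
    · exact linearIndependent_iff'.1 e.linearIndependent b.support (fun i => co (b i) m) hcomb i hi
    · rw [Finsupp.notMem_support_iff.1 hi, hzero]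
  rw [Finsupp.sum]
  refine Finset.sum_eq_zero fun i _ => ?_
  rw [key i, TensorProduct.zero_tmul]

/-- induction on the elements of `V ⊗ V` -/
theorem inVV_induction {P : Γ} {n : ℤ} {c : Pt Γ K} {H : Ent Γ K ⊗[HG Γ K] Ent Γ K}
    (hH : InVV P n c H) (Q : Ent Γ K ⊗[HG Γ K] Ent Γ K → Prop) (h0 : Q 0)
    (hadd : ∀ x y, Q x → Q y → Q (x + y))
    (ht : ∀ f ∈ Th P n c, ∀ h ∈ Th P n c, Q (f ⊗ₜ h)) : Q H := by
  obtain ⟨H', rfl⟩ := hH
  induction H' using TensorProduct.induction_on with
  | zero => rw [map_zero]; exact h0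
  | tmul f h =>
    rw [TensorProduct.map_tmul]
    exact ht f.1 f.2 h.1 h.2
  | add x y hx hy => rw [map_add]; exact hadd _ _ hx hy

theorem qq_ne {P : Γ} (hP : 0 < P) (k : ℤ) : (qq P : Pt Γ K) ≠ 1 * qq (P + P) ^ k := by
  intro h
  rw [one_mul] at h
  have h1 : P = k • (P + P) := by
    have h2 := congrArg (fun a : Pt Γ K => Multiplicative.toAdd a.1) h
    simpa [qq] using h2
  have hPP : 0 ≤ P + P := (add_pos hP hP).le
  rcases le_or_gt k 0 with hk | hk
  · have h3 : 0 ≤ (-k) • (P + P) := zsmul_nonneg hPP (by omega)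
    rw [neg_smul, ← h1] at h3
    have := neg_nonneg.1 h3
    exact absurd hP (not_lt.2 this)
  · have h3 : 0 ≤ (k - 1) • (P + P) := zsmul_nonneg hPP (by omega)
    rw [sub_smul, one_smul, ← h1] at h3
    have h4 : P - (P + P) = -P := by abel
    rw [h4] at h3
    exact absurd hP (not_lt.2 (neg_nonneg.1 h3))

/-- **TH8.** -/
theorem b0 (h1 : S_rules) (h2 : S_T) (h3 : S_Th) (h4 : S_theta) (h5 : S_div) : S_b0 := by
  intro Γ K _ _ _ _ _ P hP n c γ H hH hdv hn
  obtain ⟨L, hL⟩ := exists_L (Γ := Γ) (K := K) h1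
  apply zero_of_L h1 L hL
  obtain ⟨-, -, radd, rcst, rmono, rsg, -, -, -, rcc, rccz, rccne⟩ := h1 Γ K
  obtain ⟨-, tmono, tqq, -, tDl, -, -⟩ := h2 Γ K
  obtain ⟨hPpos, hPP, hTh, -⟩ := h3 Γ K P hP
  obtain ⟨-, -, hTh2, -, -, hneg, -⟩ := h3 Γ K (P + P) hPP
  -- (1) the functional equation for the period `P + P`
  have hA1 : ∀ l, L l H ∈ Th (P + P) n (qq P ^ (l - n)) := by
    intro l
    refine inVV_induction hH (fun x => L l x ∈ Th (P + P) n (qq P ^ (l - n))) ?_ ?_ ?_
    · simp only [map_zero]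
      exact Submodule.zero_mem _
    · intro x y hx hy
      simp only [map_add]
      exact Submodule.add_mem _ hx hy
    · intro f hf h hh
      rw [hL, hTh2]
      intro m
      rw [co_B, co_B]
      have e1 := (hTh n c f).1 hf m
      have e2 := (hTh n c h).1 hh (l - m - n)
      have e3 : l - m - n + n = l - m := by ring
      rw [e3] at e2
      have e4 : l - (m + n) = l - m - n := by ring
      rw [e4]
      have e5 : (cc (qq P ^ (l - n)) : HG Γ K) = cc (qq P ^ (l - m - n)) * cc (qq P ^ m) := by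
        rw [← rcc, ← zpow_add]
        congr 2
        ring
      have e6 : (cc (qq (P + P) ^ m) : HG Γ K) = cc (qq P ^ m) * cc (qq P ^ m) := by
        have e7 : (qq (P + P) : Pt Γ K) = qq P * qq P := by
          apply Prod.ext
          · rfl
          · simp [qq]
        rw [← rcc, e7, mul_zpow]
      have hc := rccne c
      apply mul_left_cancel₀ hc
      rw [e5, e6]
      linear_combination (cc (qq P ^ m) * cc (qq P ^ (l - m - n)) * co h (l - m - n)) * e1 -
        (cc (qq P ^ m) * cc (qq P ^ m) * co f m) * e2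
  -- (2) the order at the point `1`
  have hA2 : ∀ l, ∀ j < γ, PowerSeries.coeff j (T 1 (L l H)) = 0 := by
    intro l j hj
    rw [← tDl 1 j]
    have hkey : PowerSeries.coeff 0 (T 1 (Dl j (L l H))) = co (dv j H) l := by
      refine inVV_induction hH (fun x => PowerSeries.coeff 0 (T 1 (Dl j (L l x))) = co (dv j x) l)
        ?_ ?_ ?_
      · simp only [map_zero]
        ext a
        rw [coeff_co]
        exact (cf_zero _ _).symm
      · intro x y hx hy
        simp only [map_add] at hx hy ⊢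
        rw [hx, hy, radd]
      · intro f _ h _
        rw [hL, Dl_B, T_one_B]
        rfl
    rw [hkey, hdv j hj]
    ext a
    rw [coeff_co]
    exact cf_zero _ _
  -- (3) the order at the point `q`
  have hsg : ∀ l, sg P (L l H) = cst (cc c) * (mono (-n) * L (l + n) H) := by
    intro l
    refine inVV_induction hH
      (fun x => sg P (L l x) = cst (cc c) * (mono (-n) * L (l + n) x)) ?_ ?_ ?_
    · simp only [map_zero, mul_zero]
    · intro x y hx hy
      simp only [map_add, mul_add]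
      rw [hx, hy]
    · intro f hf h _
      rw [hL, hL]
      apply ext_co
      intro m
      rw [rsg, rcst, rmono, co_B, co_B]
      have e1 := (hTh n c f).1 hf m
      have e2 : m - -n = m + n := by ring
      have e3 : l + n - (m + n) = l - m := by ring
      rw [e2, e3, ← mul_assoc, ← mul_assoc, e1]
  have hA3 : ∀ l, PowerSeries.X ^ γ ∣ T (qq P) (L l H) := by
    intro l
    have e1 : T (qq P) (L l H) = T 1 (sg P (L l H)) := by
      rw [← tqq, one_mul]
    rw [e1, hsg, map_mul, map_mul]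
    exact Dvd.dvd.mul_left (Dvd.dvd.mul_left (PowerSeries.X_pow_dvd_iff.2 (hA2 (l + n))) _) _
  -- (4) division
  intro l
  obtain ⟨f', hf', hLf'⟩ := h5 Γ K (P + P) hPP n (qq P ^ (l - n)) 1 (L l H) (hA1 l) γ (hA2 l)
  have hunit : IsUnit (T (qq P) (theta (P + P) (1 : Pt Γ K))) := by
    rw [PowerSeries.isUnit_iff_constantCoeff]
    have h6 := (h4 Γ K (P + P) hPP 1).2.2.2.2 (qq P) (fun k => qq_ne hPpos k)
    rw [PowerSeries.coeff_zero_eq_constantCoeff_apply] at h6
    exact isUnit_iff_ne_zero.2 h6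
  have hdvd : PowerSeries.X ^ γ ∣ T (qq P) f' := by
    have h6 := hA3 l
    rw [hLf', map_mul, map_pow] at h6
    exact (IsUnit.dvd_mul_left (hunit.pow γ)).1 h6
  obtain ⟨f'', hf'', hff⟩ := h5 Γ K (P + P) hPP _ _ (qq P) f' hf' γ
    (PowerSeries.X_pow_dvd_iff.1 hdvd)
  rw [hneg _ _ (by omega), Submodule.mem_bot] at hf''
  rw [hLf', hff, hf'', mul_zero, mul_zero]

end Pool.Agent.H650.TH
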